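import Mathlib

/-!
# MP_2b52df_co, Q1: `|A * A + A| ≥ |A + A|` for separated sets of reals

Already a single dilate `A + m • A` with `m ∈ A` is at least as large as `A + A` in the cases
treated here. If the collisions `a + m b = a' + m b'` force `δ ≤ |b - b'|` and the diameter of `A`
is at most `2 δ |m|`, cut `A` at its midpoint: the upper half gives distinct sums with all of
`m • A`, the lower half gives new sums with the least element of `m • A`, and symmetrically.
-/

set_option autoImplicit false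

namespace Pool.Agent.Results.MP_2b52df_co.SeparatedSets

open scoped Pointwise
open Finset

lemma card_add_self_le (B C : Finset ℝ) (hC : C ⊆ B)
    (h : ∀ c ∈ C, ∃ x ∈ B, ∃ y ∈ B, x ≠ y ∧ x + y = c + c) :
    2 * (B + B).card + 2 * C.card ≤ B.card * B.card + B.card := by
  classical
  set F : Sym2 ℝ → ℝ := Sym2.lift ⟨fun x y : ℝ => x + y, fun x y => add_comm x y⟩ with hF
  have hsub : B + B ⊆ (B.offDiag.image (Function.uncurry Sym2.mk)).image F ∪ (B \ C).image (fun b => b + b) := by
    intro v hv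
    rw [Finset.mem_add] at hv
    obtain ⟨x, hx, y, hy, rfl⟩ := hv
    rw [Finset.mem_union]
    by_cases hxy : x = y
    · subst hxy
      by_cases hc : x ∈ C
      · left
        obtain ⟨x', hx', y', hy', hne, he⟩ := h x hc
        rw [Finset.mem_image]
        refine ⟨s(x', y'), ?_, ?_⟩
        · rw [Finset.mem_image]
          exact ⟨(x', y'), by simp [hx', hy', hne], rfl⟩
        · simpa [hF] using he
      · right
        rw [Finset.mem_image]
        exact ⟨x, by simp [hx, hc], rfl⟩
    · left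
      rw [Finset.mem_image]
      refine ⟨s(x, y), ?_, ?_⟩
      · rw [Finset.mem_image]
        exact ⟨(x, y), by simp [hx, hy, hxy], rfl⟩
      · simp [hF]
  have h1 : (B.offDiag.image (Function.uncurry Sym2.mk)).card = B.card.choose 2 := Sym2.card_image_offDiag B
  have h2 := Finset.card_le_card hsub
  have h3 := Finset.card_union_le ((B.offDiag.image (Function.uncurry Sym2.mk)).image F)
    ((B \ C).image (fun b => b + b))
  have h4 : ((B.offDiag.image (Function.uncurry Sym2.mk)).image F).card ≤ (B.offDiag.image (Function.uncurry Sym2.mk)).card :=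
    Finset.card_image_le
  have h5 : ((B \ C).image (fun b => b + b)).card ≤ (B \ C).card := Finset.card_image_le
  have h6 : (B \ C).card = B.card - C.card := Finset.card_sdiff_of_subset hC
  have h7 : C.card ≤ B.card := card_le_card hC
  have h8 : B.card.choose 2 * 2 = B.card * (B.card - 1) := by
    rw [Nat.choose_two_right]
    exact Nat.div_mul_cancel (Nat.even_mul_pred_self _).two_dvd
  have h9 : B.card * (B.card - 1) + B.card = B.card * B.card := by
    rcases Nat.eq_zero_or_pos B.card with h0 | h0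
    · simp [h0]
    · obtain ⟨k, hk⟩ := Nat.exists_eq_succ_of_ne_zero h0.ne'
      rw [hk]
      simp
      ring
  omega

lemma oneSided (A B : Finset ℝ) (μ ρ ε lo : ℝ) (hρ : ρ ≤ ε)
    (hA : ∀ a ∈ A, μ - ρ ≤ a ∧ a ≤ μ + ρ)
    (hlo : lo ∈ B) (hlo' : ∀ b ∈ B, lo ≤ b)
    (hB : ∀ a ∈ A, ∀ b ∈ B, ∀ a' ∈ A, ∀ b' ∈ B, b < b' → a + b = a' + b' → b + ε ≤ b') :
    (A.filter (μ < ·)).card * B.card + (A.filter (· < μ)).card
      + (A.filter (· = μ)).card * (B.filter (fun b => b - ε ∉ B)).card ≤ (A + B).card := by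
  classical
  set S := ((A.filter (μ < ·)) ×ˢ B ∪ (A.filter (· < μ)) ×ˢ {lo})
    ∪ (A.filter (· = μ)) ×ˢ (B.filter (fun b => b - ε ∉ B)) with hS
  have hcard : S.card = (A.filter (μ < ·)).card * B.card + (A.filter (· < μ)).card
      + (A.filter (· = μ)).card * (B.filter (fun b => b - ε ∉ B)).card := by
    rw [hS, Finset.card_union_of_disjoint, Finset.card_union_of_disjoint, Finset.card_product,
      Finset.card_product, Finset.card_product]
    · simp
    · rw [Finset.disjoint_left]
      rintro ⟨x, y⟩ h1 h2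
      simp only [Finset.mem_product, Finset.mem_filter] at h1 h2
      linarith [h1.1.2, h2.1.2]
    · rw [Finset.disjoint_left]
      rintro ⟨x, y⟩ h1 h2
      simp only [Finset.mem_union, Finset.mem_product, Finset.mem_filter] at h1 h2
      rcases h1 with h1 | h1
      · linarith [h1.1.2, h2.1.2]
      · linarith [h1.1.2, h2.1.2]
  rw [← hcard]
  have key : ∀ p ∈ S, ∀ p' ∈ S, p.1 + p.2 = p'.1 + p'.2 → ¬ p.2 < p'.2 := by
    rintro ⟨a, b⟩ hp ⟨a', b'⟩ hp' he hlt
    simp only at he hlt
    have hmem : ∀ x y : ℝ, (x, y) ∈ S → x ∈ A ∧ y ∈ B := by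
      intro x y h
      simp only [hS, Finset.mem_union, Finset.mem_product, Finset.mem_filter,
        Finset.mem_singleton] at h
      rcases h with (h | h) | h
      · exact ⟨h.1.1, h.2⟩
      · exact ⟨h.1.1, h.2 ▸ hlo⟩
      · exact ⟨h.1.1, h.2.1⟩
    obtain ⟨ha, hb⟩ := hmem a b hp
    obtain ⟨ha', hb'⟩ := hmem a' b' hp'
    have h1 := hB a ha b hb a' ha' b' hb' hlt he
    have h2 := hA a ha
    have h3 := hA a' ha'
    have h4 := hlo' b hb
    simp only [hS, Finset.mem_union, Finset.mem_product, Finset.mem_filter,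
      Finset.mem_singleton] at hp hp'
    rcases hp' with (hp' | hp') | hp'
    · have := hp'.1.2
      linarith
    · have := hp'.2
      linarith
    · have h5 := hp'.1.2
      rcases hp with (hp | hp) | hp
      · have h6 : b' - ε = b := by linarith
        exact hp'.2.2 (h6 ▸ hb)
      · have := hp.1.2
        linarith
      · have := hp.1.2
        linarith
  refine Finset.card_le_card_of_injOn (fun p => p.1 + p.2) ?_ ?_
  · rintro ⟨a, b⟩ hp
    simp only [hS, Finset.coe_union, Set.mem_union, Finset.mem_coe, Finset.mem_product,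
      Finset.mem_filter, Finset.mem_singleton] at hp
    rw [Finset.mem_coe, Finset.mem_add]
    rcases hp with (h | h) | h
    · exact ⟨a, h.1.1, b, h.2, rfl⟩
    · exact ⟨a, h.1.1, b, h.2 ▸ hlo, rfl⟩
    · exact ⟨a, h.1.1, b, h.2.1, rfl⟩
  · intro p hp p' hp' he
    simp only at he
    have h1 := key p hp p' hp' he
    have h2 := key p' hp' p hp he.symm
    have h3 : p.2 = p'.2 := le_antisymm (not_lt.mp h2) (not_lt.mp h1)
    have h4 : p.1 = p'.1 := by linarith
    exact Prod.ext h4 h3

lemma oneSided' (A B : Finset ℝ) (μ ρ ε hi : ℝ) (hρ : ρ ≤ ε)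
    (hA : ∀ a ∈ A, μ - ρ ≤ a ∧ a ≤ μ + ρ)
    (hhi : hi ∈ B) (hhi' : ∀ b ∈ B, b ≤ hi)
    (hB : ∀ a ∈ A, ∀ b ∈ B, ∀ a' ∈ A, ∀ b' ∈ B, b < b' → a + b = a' + b' → b + ε ≤ b') :
    (A.filter (· < μ)).card * B.card + (A.filter (μ < ·)).card
      + (A.filter (· = μ)).card * (B.filter (fun b => b + ε ∉ B)).card ≤ (A + B).card := by
  classical
  set S := ((A.filter (· < μ)) ×ˢ B ∪ (A.filter (μ < ·)) ×ˢ {hi})
    ∪ (A.filter (· = μ)) ×ˢ (B.filter (fun b => b + ε ∉ B)) with hS
  have hcard : S.card = (A.filter (· < μ)).card * B.card + (A.filter (μ < ·)).card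
      + (A.filter (· = μ)).card * (B.filter (fun b => b + ε ∉ B)).card := by
    rw [hS, Finset.card_union_of_disjoint, Finset.card_union_of_disjoint, Finset.card_product,
      Finset.card_product, Finset.card_product]
    · simp
    · rw [Finset.disjoint_left]
      rintro ⟨x, y⟩ h1 h2
      simp only [Finset.mem_product, Finset.mem_filter] at h1 h2
      linarith [h1.1.2, h2.1.2]
    · rw [Finset.disjoint_left]
      rintro ⟨x, y⟩ h1 h2
      simp only [Finset.mem_union, Finset.mem_product, Finset.mem_filter] at h1 h2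
      rcases h1 with h1 | h1
      · linarith [h1.1.2, h2.1.2]
      · linarith [h1.1.2, h2.1.2]
  rw [← hcard]
  have key : ∀ p ∈ S, ∀ p' ∈ S, p.1 + p.2 = p'.1 + p'.2 → ¬ p.2 < p'.2 := by
    rintro ⟨a, b⟩ hp ⟨a', b'⟩ hp' he hlt
    simp only at he hlt
    have hmem : ∀ x y : ℝ, (x, y) ∈ S → x ∈ A ∧ y ∈ B := by
      intro x y h
      simp only [hS, Finset.mem_union, Finset.mem_product, Finset.mem_filter,
        Finset.mem_singleton] at h
      rcases h with (h | h) | h
      · exact ⟨h.1.1, h.2⟩
      · exact ⟨h.1.1, h.2 ▸ hhi⟩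
      · exact ⟨h.1.1, h.2.1⟩
    obtain ⟨ha, hb⟩ := hmem a b hp
    obtain ⟨ha', hb'⟩ := hmem a' b' hp'
    have h1 := hB a ha b hb a' ha' b' hb' hlt he
    have h2 := hA a ha
    have h3 := hA a' ha'
    have h4 := hhi' b' hb'
    simp only [hS, Finset.mem_union, Finset.mem_product, Finset.mem_filter,
      Finset.mem_singleton] at hp hp'
    rcases hp with (hp | hp) | hp
    · have := hp.1.2
      linarith
    · have := hp.2
      linarith
    · have h5 := hp.1.2
      rcases hp' with (hp' | hp') | hp'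
      · have h6 : b + ε = b' := by linarith
        exact hp.2.2 (h6 ▸ hb')
      · have := hp'.1.2
        linarith
      · have := hp'.1.2
        linarith
  refine Finset.card_le_card_of_injOn (fun p => p.1 + p.2) ?_ ?_
  · rintro ⟨a, b⟩ hp
    simp only [hS, Finset.coe_union, Set.mem_union, Finset.mem_coe, Finset.mem_product,
      Finset.mem_filter, Finset.mem_singleton] at hp
    rw [Finset.mem_coe, Finset.mem_add]
    rcases hp with (h | h) | h
    · exact ⟨a, h.1.1, b, h.2, rfl⟩
    · exact ⟨a, h.1.1, b, h.2 ▸ hhi, rfl⟩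
    · exact ⟨a, h.1.1, b, h.2.1, rfl⟩
  · intro p hp p' hp' he
    simp only at he
    have h1 := key p hp p' hp' he
    have h2 := key p' hp' p hp he.symm
    have h3 : p.2 = p'.2 := le_antisymm (not_lt.mp h2) (not_lt.mp h1)
    have h4 : p.1 = p'.1 := by linarith
    exact Prod.ext h4 h3

/-- The dilate `m • A`, written as an image. -/
lemma dilate_sub (A : Finset ℝ) (m : ℝ) (hm : m ∈ A) :
    A + A.image (fun x => m * x) ⊆ A * A + A := by
  classical
  intro v hv
  rw [Finset.mem_add] at hv
  obtain ⟨a, ha, b, hb, rfl⟩ := hv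
  rw [Finset.mem_image] at hb
  obtain ⟨x, hx, rfl⟩ := hb
  rw [Finset.mem_add]
  exact ⟨m * x, Finset.mul_mem_mul hm hx, a, ha, by ring⟩

lemma dilate_card (A : Finset ℝ) (m : ℝ) (hm : m ≠ 0) :
    (A.image (fun x => m * x)).card = A.card :=
  Finset.card_image_of_injective _ (mul_right_injective₀ hm)

lemma dilate_add_card (A : Finset ℝ) (m : ℝ) (hm : m ≠ 0) :
    (A.image (fun x => m * x) + A.image (fun x => m * x)).card = (A + A).card := by
  classical
  have h : A.image (fun x => m * x) + A.image (fun x => m * x)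
      = (A + A).image (fun x => m * x) := by
    ext v
    simp only [Finset.mem_add, Finset.mem_image]
    constructor
    · rintro ⟨_, ⟨a, ha, rfl⟩, _, ⟨b, hb, rfl⟩, rfl⟩
      exact ⟨a + b, ⟨a, ha, b, hb, rfl⟩, by ring⟩
    · rintro ⟨_, ⟨a, ha, b, hb, rfl⟩, rfl⟩
      exact ⟨m * a, ⟨a, ha, rfl⟩, m * b, ⟨b, hb, rfl⟩, by ring⟩
  rw [h]
  exact dilate_card _ m hm

lemma small_card (A : Finset ℝ) (h : A.card ≤ 1) : (A + A).card ≤ (A * A + A).card := by
  classical
  rcases Nat.eq_zero_or_pos A.card with h0 | h0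
  · rw [Finset.card_eq_zero] at h0
    subst h0
    simp
  · have hne : A.Nonempty := Finset.card_pos.mp h0
    have h1 : (A + A).card ≤ A.card * A.card := Finset.card_add_le
    have h2 : 0 < (A * A + A).card := Finset.card_pos.mpr ((hne.mul hne).add hne)
    have h3 : A.card = 1 := le_antisymm h h0
    rw [h3] at h1
    omega

/-- The criterion with one dilate. -/
lemma crit (A : Finset ℝ) (m δ : ℝ) (hm : m ∈ A)
    (hcol : ∀ a ∈ A, ∀ b ∈ A, ∀ a' ∈ A, ∀ b' ∈ A, b ≠ b' → a + m * b = a' + m * b' →
      δ ≤ |b - b'|)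
    (hD : ∀ a ∈ A, ∀ b ∈ A, |a - b| ≤ 2 * δ * |m|) :
    (A + A).card ≤ (A * A + A).card := by
  classical
  rcases Nat.lt_or_ge 1 A.card with hn | hn
  swap
  · exact small_card A hn
  obtain ⟨x₀, hx₀, y₀, hy₀, hxy₀⟩ := Finset.one_lt_card.mp hn
  have hpos : 0 < 2 * δ * |m| := lt_of_lt_of_le (abs_pos.mpr (sub_ne_zero.mpr hxy₀)) (hD x₀ hx₀ y₀ hy₀)
  have hm0 : m ≠ 0 := by
    rintro rfl
    simp at hpos
  have hmp : 0 < |m| := abs_pos.mpr hm0
  have hδ : 0 < δ := by
    by_contra hcon
    push Not at hcon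
    nlinarith
  have hne : A.Nonempty := ⟨m, hm⟩
  set M := A.max' hne with hM
  set l := A.min' hne with hl
  have hMA : M ∈ A := A.max'_mem hne
  have hlA : l ∈ A := A.min'_mem hne
  have hMle : ∀ a ∈ A, a ≤ M := fun a ha => A.le_max' a ha
  have hlle : ∀ a ∈ A, l ≤ a := fun a ha => A.min'_le a ha
  have hlM : l < M := by
    rcases lt_or_gt_of_ne hxy₀ with h | h
    · linarith [hlle x₀ hx₀, hMle y₀ hy₀]
    · linarith [hlle y₀ hy₀, hMle x₀ hx₀]
  have hDlM := hD M hMA l hlA
  rw [abs_of_pos (by linarith)] at hDlM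
  set B := A.image (fun x => m * x) with hBdef
  have hBcard : B.card = A.card := dilate_card A m hm0
  have hBne : B.Nonempty := ⟨m * m, Finset.mem_image_of_mem _ hm⟩
  set μ := (M + l) / 2 with hμ
  set ρ := (M - l) / 2 with hρ
  set ε := δ * |m| with hε
  have hερ : ρ ≤ ε := by rw [hρ, hε]; linarith
  have hε0 : 0 < ε := mul_pos hδ hmp
  have hA : ∀ a ∈ A, μ - ρ ≤ a ∧ a ≤ μ + ρ := by
    intro a ha
    have h1 := hMle a ha
    have h2 := hlle a ha
    constructor
    · rw [hμ, hρ]; linarith
    · rw [hμ, hρ]; linarith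
  have hB : ∀ a ∈ A, ∀ b ∈ B, ∀ a' ∈ A, ∀ b' ∈ B, b < b' → a + b = a' + b' → b + ε ≤ b' := by
    intro a ha b hb a' ha' b' hb' hlt he
    rw [hBdef, Finset.mem_image] at hb hb'
    obtain ⟨x, hx, rfl⟩ := hb
    obtain ⟨x', hx', rfl⟩ := hb'
    have hxx : x ≠ x' := by
      rintro rfl
      exact lt_irrefl _ hlt
    have h1 := hcol a ha x hx a' ha' x' hx' hxx he
    have h2 : m * x' - m * x = |m| * |x - x'| := by
      rw [← abs_mul, mul_sub, abs_sub_comm, abs_of_pos (by linarith)]
    have h3 : δ * |m| ≤ |m| * |x - x'| := by nlinarith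
    rw [hε]
    linarith
  have h1 := oneSided A B μ ρ ε (B.min' hBne) hερ hA (B.min'_mem hBne)
    (fun b hb => B.min'_le b hb) hB
  have h2 := oneSided' A B μ ρ ε (B.max' hBne) hερ hA (B.max'_mem hBne)
    (fun b hb => B.le_max' b hb) hB
  have hpart : (A.filter (μ < ·)).card + (A.filter (· < μ)).card + (A.filter (· = μ)).card
      = A.card := by
    have e1 := Finset.card_filter_add_card_filter_not (s := A) (fun x => μ < x)
    have e2 := Finset.card_filter_add_card_filter_not (s := A.filter (fun x => ¬ μ < x))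
      (fun x => x < μ)
    have e3 : (A.filter (fun x => ¬ μ < x)).filter (fun x => x < μ) = A.filter (· < μ) := by
      ext x
      simp only [Finset.mem_filter]
      constructor
      · rintro ⟨⟨a, b⟩, c⟩
        exact ⟨a, c⟩
      · rintro ⟨a, c⟩
        exact ⟨⟨a, not_lt.mpr c.le⟩, c⟩
    have e4 : (A.filter (fun x => ¬ μ < x)).filter (fun x => ¬ x < μ) = A.filter (· = μ) := by
      ext x
      simp only [Finset.mem_filter]
      constructor
      · rintro ⟨⟨a, b⟩, c⟩
        exact ⟨a, le_antisymm (not_lt.mp b) (not_lt.mp c)⟩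
      · rintro ⟨a, rfl⟩
        exact ⟨⟨a, lt_irrefl _⟩, lt_irrefl _⟩
    rw [e3, e4] at e2
    omega
  have hsum := dilate_add_card A m hm0
  rw [← hBdef] at hsum
  have hsub := Finset.card_le_card (dilate_sub A m hm)
  rw [← hBdef] at hsub
  refine le_trans ?_ hsub
  rw [← hsum]
  by_cases hμA : μ ∈ A
  · -- the midpoint belongs to `A`
    have hZ : (A.filter (· = μ)).card = 1 := by
      rw [Finset.card_eq_one]
      refine ⟨μ, ?_⟩
      ext x
      simp only [Finset.mem_filter, Finset.mem_singleton]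
      constructor
      · exact fun h => h.2
      · rintro rfl
        exact ⟨hμA, rfl⟩
    set T := B.filter (fun b => b - ε ∈ B) with hT
    set T' := B.filter (fun b => b + ε ∈ B) with hT'
    have hTc : T.card + (B.filter (fun b => b - ε ∉ B)).card = B.card :=
      Finset.card_filter_add_card_filter_not (s := B) (fun b => b - ε ∈ B)
    have hTc' : T'.card + (B.filter (fun b => b + ε ∉ B)).card = B.card :=
      Finset.card_filter_add_card_filter_not (s := B) (fun b => b + ε ∈ B)
    set C := insert (m * μ) (T ∩ T') with hC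
    have hCB : C ⊆ B := by
      intro c hc
      rw [hC, Finset.mem_insert] at hc
      rcases hc with rfl | hc
      · exact Finset.mem_image_of_mem _ hμA
      · exact (Finset.mem_filter.mp (Finset.mem_inter.mp hc).1).1
    have hCx : ∀ c ∈ C, ∃ x ∈ B, ∃ y ∈ B, x ≠ y ∧ x + y = c + c := by
      intro c hc
      rw [hC, Finset.mem_insert] at hc
      rcases hc with rfl | hc
      · refine ⟨m * l, Finset.mem_image_of_mem _ hlA, m * M, Finset.mem_image_of_mem _ hMA, ?_, ?_⟩
        · intro h
          exact hlM.ne (mul_left_cancel₀ hm0 h)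
        · rw [hμ]; ring
      · have c1 := (Finset.mem_filter.mp (Finset.mem_inter.mp hc).1).2
        have c2 := (Finset.mem_filter.mp (Finset.mem_inter.mp hc).2).2
        exact ⟨c - ε, c1, c + ε, c2, by linarith, by ring⟩
    have hcard := card_add_self_le B C hCB hCx
    have hC1 : 1 ≤ C.card := Finset.card_pos.mpr ⟨m * μ, Finset.mem_insert_self _ _⟩
    have hC2 : (T ∩ T').card ≤ C.card := Finset.card_le_card (Finset.subset_insert _ _)
    have hC3 : (T ∪ T').card + (T ∩ T').card = T.card + T'.card :=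
      Finset.card_union_add_card_inter T T'
    have hC4 : (T ∪ T').card ≤ B.card := Finset.card_le_card
      (Finset.union_subset (Finset.filter_subset _ _) (Finset.filter_subset _ _))
    rw [hZ] at h1 h2 hpart
    rw [hBcard] at *
    obtain ⟨k, hk⟩ : ∃ k, A.card = k + 1 := ⟨A.card - 1, by omega⟩
    have hkk : (A.filter (μ < ·)).card + (A.filter (· < μ)).card = k := by omega
    have e5 : (A.filter (μ < ·)).card * A.card + (A.filter (· < μ)).card * A.card
        = k * (k + 1) := by rw [← add_mul, hkk, hk]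
    have e6 : A.card * A.card = k * (k + 1) + (k + 1) := by rw [hk]; ring
    omega
  · have hZ : (A.filter (· = μ)).card = 0 := by
      rw [Finset.card_eq_zero, Finset.filter_eq_empty_iff]
      rintro x hx rfl
      exact hμA hx
    have hcard := card_add_self_le B ∅ (Finset.empty_subset _) (by simp)
    rw [hZ] at h1 h2 hpart
    rw [hBcard] at *
    have e5 : (A.filter (μ < ·)).card * A.card + (A.filter (· < μ)).card * A.card
        = A.card * A.card := by
      rw [← add_mul]
      congr 1
    simp only [Finset.card_empty] at hcard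
    omega

/-- **Main result.** Let `A` be a finite set of real numbers. Then `|A + A| ≤ |A * A + A|` if, for
some `m ∈ A` and some real `δ`, the diameter of `A` is at most `2 δ |m|` and every collision
`a + m b = a' + m b'` with `b ≠ b'` in `A` has `|b - b'| ≥ δ`. In particular it holds if
* distinct elements of `A` differ by at least `1` (all finite sets of integers, for example);
* `A ⊆ [0, ∞)` and distinct elements of `A` differ by at least `1 / 2`;
* `A ⊆ (1 / d) ℤ` and an element of largest absolute value is `j / d` with `j` prime to `d`. -/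
theorem result (A : Finset ℝ) :
    ((∃ m ∈ A, ∃ δ : ℝ,
        (∀ a ∈ A, ∀ b ∈ A, ∀ a' ∈ A, ∀ b' ∈ A, b ≠ b' → a + m * b = a' + m * b' →
          δ ≤ |b - b'|) ∧
        (∀ a ∈ A, ∀ b ∈ A, |a - b| ≤ 2 * δ * |m|)) →
      (A + A).card ≤ (A * A + A).card) ∧
    ((∀ a ∈ A, ∀ b ∈ A, a ≠ b → 1 ≤ |a - b|) → (A + A).card ≤ (A * A + A).card) ∧
    ((∀ a ∈ A, 0 ≤ a) → (∀ a ∈ A, ∀ b ∈ A, a ≠ b → 1 / 2 ≤ |a - b|) →
      (A + A).card ≤ (A * A + A).card) ∧
    (∀ d j : ℤ, 0 < d → IsCoprime j d → (∀ a ∈ A, ∃ k : ℤ, a = (k : ℝ) / (d : ℝ)) →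
      (j : ℝ) / (d : ℝ) ∈ A → (∀ a ∈ A, |a| ≤ |(j : ℝ) / (d : ℝ)|) →
      (A + A).card ≤ (A * A + A).card) := by
  classical
  refine ⟨?_, ?_, ?_, ?_⟩
  · rintro ⟨m, hm, δ, h1, h2⟩
    exact crit A m δ hm h1 h2
  · intro h
    rcases A.eq_empty_or_nonempty with rfl | hne
    · simp
    obtain ⟨m, hm, hmax⟩ := Finset.exists_max_image A (fun a => |a|) hne
    refine crit A m 1 hm (fun a _ b hb a' _ b' hb' hbb _ => h b hb b' hb' hbb) ?_
    intro a ha b hb
    have h3 := hmax a ha
    have h4 := hmax b hb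
    have h5 := abs_sub a b
    linarith
  · intro h0 h
    rcases A.eq_empty_or_nonempty with rfl | hne
    · simp
    obtain ⟨m, hm, hmax⟩ := Finset.exists_max_image A (fun a => a) hne
    refine crit A m (1 / 2) hm (fun a _ b hb a' _ b' hb' hbb _ => h b hb b' hb' hbb) ?_
    intro a ha b hb
    have h3 := hmax a ha
    have h4 := hmax b hb
    have h5 := h0 a ha
    have h6 := h0 b hb
    have h7 := h0 m hm
    rw [abs_of_nonneg h7, abs_le]
    constructor <;> linarith
  · intro d j hd hcop hA hj hmax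
    have hd' : (0 : ℝ) < (d : ℝ) := by exact_mod_cast hd
    refine crit A ((j : ℝ) / d) 1 hj ?_ ?_
    · intro a ha b hb a' ha' b' hb' hbb he
      obtain ⟨x, rfl⟩ := hA a ha
      obtain ⟨y, rfl⟩ := hA b hb
      obtain ⟨x', rfl⟩ := hA a' ha'
      obtain ⟨y', rfl⟩ := hA b' hb'
      have h1 : (x : ℝ) * d + j * y = x' * d + j * y' := by
        field_simp at he
        linarith
      have h2 : x * d + j * y = x' * d + j * y' := by exact_mod_cast h1
      have h3 : d ∣ j * (y - y') := ⟨x' - x, by linear_combination h2⟩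
      have h4 : d ∣ y - y' := (hcop.symm).dvd_of_dvd_mul_left h3
      obtain ⟨k, hk⟩ := h4
      have hk0 : k ≠ 0 := by
        rintro rfl
        apply hbb
        have : y = y' := by linarith
        rw [this]
      have h5 : (y : ℝ) / d - (y' : ℝ) / d = k := by
        have : (y : ℝ) - y' = d * k := by exact_mod_cast hk
        rw [← sub_div, this]
        field_simp
      rw [h5]
      have : (1 : ℤ) ≤ |k| := Int.one_le_abs hk0
      exact_mod_cast this
    · intro a ha b hb
      have h3 := hmax a ha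
      have h4 := hmax b hb
      have h5 := abs_sub a b
      linarith

end Pool.Agent.Results.MP_2b52df_co.SeparatedSets
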