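import Mathlib

/-!
# MP_2b52df_co, Q1: `|A * A + A| ≥ |A + A|` for Sidon sets of reals

For a Sidon set `A` and any `m ≠ 0` in `A` the number of representations `r v` of `v` in
`A + m • A` satisfies `∑ (r v - 1) (r v - 2) ≥ 0` and `∑ (r v) ^ 2 ≤ 2 n ^ 2 - n`, so already
`|A + m • A| ≥ n (n + 1) / 2 = |A + A|`.
-/

set_option autoImplicit false

namespace Pool.Agent.Results.MP_2b52df_co.SidonSets

open scoped Pointwise
open Finset

lemma card_add_self_le (B C : Finset ℝ) (hC : C ⊆ B)
    (h : ∀ c ∈ C, ∃ x ∈ B, ∃ y ∈ B, x ≠ y ∧ x + y = c + c) :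
    2 * (B + B).card + 2 * C.card ≤ B.card * B.card + B.card := by
  classical
  set F : Sym2 ℝ → ℝ := Sym2.lift ⟨fun x y : ℝ => x + y, fun x y => add_comm x y⟩ with hF
  have hsub : B + B ⊆ (B.offDiag.image (Function.uncurry Sym2.mk)).image F ∪ (B \ C).image (fun b => b + b) := by
    intro v hv
    rw [Finset.mem_add] at hv
    obtain ⟨x, hx, y, hy, rfl⟩ := hv
    rw [Finset.mem_union]
    by_cases hxy : x = y
    · subst hxy
      by_cases hc : x ∈ C
      · left
        obtain ⟨x', hx', y', hy', hne, he⟩ := h x hc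
        rw [Finset.mem_image]
        refine ⟨s(x', y'), ?_, ?_⟩
        · rw [Finset.mem_image]
          exact ⟨(x', y'), by simp [hx', hy', hne], rfl⟩
        · simpa [hF] using he
      · right
        rw [Finset.mem_image]
        exact ⟨x, by simp [hx, hc], rfl⟩
    · left
      rw [Finset.mem_image]
      refine ⟨s(x, y), ?_, ?_⟩
      · rw [Finset.mem_image]
        exact ⟨(x, y), by simp [hx, hy, hxy], rfl⟩
      · simp [hF]
  have h1 : (B.offDiag.image (Function.uncurry Sym2.mk)).card = B.card.choose 2 := Sym2.card_image_offDiag B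
  have h2 := Finset.card_le_card hsub
  have h3 := Finset.card_union_le ((B.offDiag.image (Function.uncurry Sym2.mk)).image F)
    ((B \ C).image (fun b => b + b))
  have h4 : ((B.offDiag.image (Function.uncurry Sym2.mk)).image F).card ≤ (B.offDiag.image (Function.uncurry Sym2.mk)).card :=
    Finset.card_image_le
  have h5 : ((B \ C).image (fun b => b + b)).card ≤ (B \ C).card := Finset.card_image_le
  have h6 : (B \ C).card = B.card - C.card := Finset.card_sdiff_of_subset hC
  have h7 : C.card ≤ B.card := card_le_card hC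
  have h8 : B.card.choose 2 * 2 = B.card * (B.card - 1) := by
    rw [Nat.choose_two_right]
    exact Nat.div_mul_cancel (Nat.even_mul_pred_self _).two_dvd
  have h9 : B.card * (B.card - 1) + B.card = B.card * B.card := by
    rcases Nat.eq_zero_or_pos B.card with h0 | h0
    · simp [h0]
    · obtain ⟨k, hk⟩ := Nat.exists_eq_succ_of_ne_zero h0.ne'
      rw [hk]
      simp
      ring
  omega

/-- The dilate `m • A`, written as an image. -/
lemma dilate_sub (A : Finset ℝ) (m : ℝ) (hm : m ∈ A) :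
    A + A.image (fun x => m * x) ⊆ A * A + A := by
  classical
  intro v hv
  rw [Finset.mem_add] at hv
  obtain ⟨a, ha, b, hb, rfl⟩ := hv
  rw [Finset.mem_image] at hb
  obtain ⟨x, hx, rfl⟩ := hb
  rw [Finset.mem_add]
  exact ⟨m * x, Finset.mul_mem_mul hm hx, a, ha, by ring⟩

lemma dilate_card (A : Finset ℝ) (m : ℝ) (hm : m ≠ 0) :
    (A.image (fun x => m * x)).card = A.card :=
  Finset.card_image_of_injective _ (mul_right_injective₀ hm)

lemma dilate_add_card (A : Finset ℝ) (m : ℝ) (hm : m ≠ 0) :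
    (A.image (fun x => m * x) + A.image (fun x => m * x)).card = (A + A).card := by
  classical
  have h : A.image (fun x => m * x) + A.image (fun x => m * x)
      = (A + A).image (fun x => m * x) := by
    ext v
    simp only [Finset.mem_add, Finset.mem_image]
    constructor
    · rintro ⟨_, ⟨a, ha, rfl⟩, _, ⟨b, hb, rfl⟩, rfl⟩
      exact ⟨a + b, ⟨a, ha, b, hb, rfl⟩, by ring⟩
    · rintro ⟨_, ⟨a, ha, b, hb, rfl⟩, rfl⟩
      exact ⟨m * a, ⟨a, ha, rfl⟩, m * b, ⟨b, hb, rfl⟩, by ring⟩
  rw [h]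
  exact dilate_card _ m hm

lemma small_card (A : Finset ℝ) (h : A.card ≤ 1) : (A + A).card ≤ (A * A + A).card := by
  classical
  rcases Nat.eq_zero_or_pos A.card with h0 | h0
  · rw [Finset.card_eq_zero] at h0
    subst h0
    simp
  · have hne : A.Nonempty := Finset.card_pos.mp h0
    have h1 : (A + A).card ≤ A.card * A.card := Finset.card_add_le
    have h2 : 0 < (A * A + A).card := Finset.card_pos.mpr ((hne.mul hne).add hne)
    have h3 : A.card = 1 := le_antisymm h h0
    rw [h3] at h1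
    omega

/-- `3 |S|^2 ≤ 2 |f(S)| + E` in the form `3 |S| ≤ 2 |f(S)| + #{(p, q) : f p = f q}`. -/
lemma rep_bound {ι : Type*} (S : Finset ι) (f : ι → ℝ) :
    3 * S.card ≤ 2 * (S.image f).card + ∑ p ∈ S, (S.filter (fun q => f q = f p)).card := by
  classical
  set r : ℝ → ℕ := fun v => (S.filter (fun q => f q = v)).card with hr
  have h1 : S.card = ∑ v ∈ S.image f, r v := Finset.card_eq_sum_card_image f S
  have h2 : ∑ p ∈ S, r (f p) = ∑ v ∈ S.image f, r v * r v := by
    have := Finset.sum_comp (s := S) r f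
    simpa [hr, smul_eq_mul] using this
  have h3 : ∑ p ∈ S, (S.filter (fun q => f q = f p)).card = ∑ p ∈ S, r (f p) := rfl
  rw [h3, h2, h1, Finset.mul_sum, Finset.card_eq_sum_ones, Finset.mul_sum,
    ← Finset.sum_add_distrib]
  apply Finset.sum_le_sum
  intro v _
  rcases Nat.lt_or_ge (r v) 3 with h | h
  · interval_cases (r v) <;> norm_num
  · nlinarith

/-- Sidon sets: all sums of two elements are distinct up to order. -/
lemma sidon (A : Finset ℝ)
    (hS : ∀ a ∈ A, ∀ b ∈ A, ∀ c ∈ A, ∀ d ∈ A, a + b = c + d → (a = c ∧ b = d) ∨ (a = d ∧ b = c)) :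
    (A + A).card ≤ (A * A + A).card := by
  classical
  rcases Nat.lt_or_ge 1 A.card with hn | hn
  swap
  · exact small_card A hn
  obtain ⟨m, hm, hm0⟩ : ∃ m ∈ A, m ≠ 0 := by
    obtain ⟨x, hx, y, hy, hxy⟩ := Finset.one_lt_card.mp hn
    by_cases h : x = 0
    · exact ⟨y, hy, fun h' => hxy (h.trans h'.symm)⟩
    · exact ⟨x, hx, h⟩
  have hsub := Finset.card_le_card (dilate_sub A m hm)
  refine le_trans ?_ hsub
  set f : ℝ × ℝ → ℝ := fun p => p.1 + m * p.2 with hf
  have himg : (A ×ˢ A).image f = A + A.image (fun x => m * x) := by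
    ext v
    simp only [Finset.mem_image, Finset.mem_product, Finset.mem_add, hf, Prod.exists]
    constructor
    · rintro ⟨a, b, ⟨ha, hb⟩, rfl⟩
      exact ⟨a, ha, m * b, ⟨b, hb, rfl⟩, rfl⟩
    · rintro ⟨a, ha, _, ⟨b, hb, rfl⟩, rfl⟩
      exact ⟨a, b, ⟨ha, hb⟩, rfl⟩
  rw [← himg]
  have h1 := rep_bound (A ×ˢ A) f
  have h2 := card_add_self_le A ∅ (Finset.empty_subset _) (by simp)
  have h3 : ∑ p ∈ A ×ˢ A, ((A ×ˢ A).filter (fun q => f q = f p)).card
      ≤ A.card * A.card + (A.card * A.card - A.card) := by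
    have e1 : ∑ p ∈ A ×ˢ A, ((A ×ˢ A).filter (fun q => f q = f p)).card
        = (((A ×ˢ A) ×ˢ (A ×ˢ A)).filter (fun z => f z.2 = f z.1)).card := by
      rw [Finset.card_filter, Finset.sum_product (A ×ˢ A) (A ×ˢ A)]
      apply Finset.sum_congr rfl
      intro p _
      rw [Finset.card_filter]
    rw [e1]
    have e2 := Finset.card_filter_add_card_filter_not
      (s := ((A ×ˢ A) ×ˢ (A ×ˢ A)).filter (fun z => f z.2 = f z.1)) (fun z => z.1 = z.2)
    have e3 : ((((A ×ˢ A) ×ˢ (A ×ˢ A)).filter (fun z => f z.2 = f z.1)).filter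
        (fun z => z.1 = z.2)).card ≤ A.card * A.card := by
      rw [← Finset.card_product]
      refine Finset.card_le_card_of_injOn (fun z => z.1) ?_ ?_
      · intro z hz
        simp only [Finset.mem_coe, Finset.mem_filter, Finset.mem_product] at hz ⊢
        exact hz.1.1.1
      · intro z hz w hw h
        simp only [Finset.mem_coe, Finset.mem_filter] at hz hw h
        exact Prod.ext h (by rw [← hz.2, ← hw.2]; exact h)
    have e4 : ((((A ×ˢ A) ×ˢ (A ×ˢ A)).filter (fun z => f z.2 = f z.1)).filter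
        (fun z => ¬ z.1 = z.2)).card ≤ A.card * A.card - A.card := by
      rw [← Finset.offDiag_card]
      refine Finset.card_le_card_of_injOn (fun z => (z.1.1, z.2.1)) ?_ ?_
      · rintro ⟨⟨a, b⟩, ⟨a', b'⟩⟩ hz
        simp only [Finset.mem_coe, Finset.mem_filter, Finset.mem_product, hf] at hz
        obtain ⟨⟨⟨⟨ha, hb⟩, ha', hb'⟩, he⟩, hne⟩ := hz
        simp only [Finset.mem_coe, Finset.mem_offDiag]
        refine ⟨ha, ha', ?_⟩
        rintro rfl
        apply hne
        have : b' = b := mul_left_cancel₀ hm0 (by linarith)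
        rw [this]
      · rintro ⟨⟨a, b⟩, ⟨a', b'⟩⟩ hz ⟨⟨c, d⟩, ⟨c', d'⟩⟩ hw h
        simp only [Finset.mem_coe, Finset.mem_filter, Finset.mem_product, hf] at hz hw
        obtain ⟨⟨⟨⟨ha, hb⟩, ha', hb'⟩, he⟩, hne⟩ := hz
        obtain ⟨⟨⟨⟨hc, hd⟩, hc', hd'⟩, he'⟩, hne'⟩ := hw
        simp only [Prod.mk.injEq] at h
        obtain ⟨rfl, rfl⟩ := h
        have h5 : b' + d = b + d' := mul_left_cancel₀ hm0 (by linarith)
        rcases hS b' hb' d hd b hb d' hd' h5 with ⟨h6, _⟩ | ⟨h6, h7⟩
        · exfalso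
          apply hne
          subst h6
          have : a = a' := by linarith
          rw [this]
        · rw [h6, h7]
    omega
  rw [Finset.card_product] at h1
  have h4 : A.card ≤ A.card * A.card := Nat.le_mul_self _
  omega

/-- **Main result.** Let `A` be a finite Sidon set of real numbers, i.e. its sums of two elements
are distinct up to order. Then `|A + A| ≤ |A * A + A|`. -/
theorem result (A : Finset ℝ)
    (hS : ∀ a ∈ A, ∀ b ∈ A, ∀ c ∈ A, ∀ d ∈ A, a + b = c + d → (a = c ∧ b = d) ∨ (a = d ∧ b = c)) :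
    (A + A).card ≤ (A * A + A).card :=
  sidon A hS

end Pool.Agent.Results.MP_2b52df_co.SidonSets
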